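import Pool.Agent.K1H34.Had2.Stmts
import Pool.Agent.K1H34.Had.PAP

/-!
# A Paley order in a residue class (piece ORDER of the project PS)
-/

set_option autoImplicit false

namespace Pool.Agent.K1H46.Had2

open Filter
open Pool.Agent.K1H34.Had (NN prime_ap)

theorem NN_four (k : ℕ) : 4 ∣ NN k := by
  have h : 2 ≤ 5 * 2 ^ (k + 3) - 1 := by
    have : 1 ≤ 2 ^ (k + 3) := Nat.one_le_two_pow
    omega
  exact pow_dvd_pow 2 h

theorem cop_aux (k n : ℕ) (hn : 4 ≤ n) (h4 : 4 ∣ n) :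
    ((n - 1) % (2 * NN k)).Coprime (2 * NN k) := by
  have h5 : (n - 1).Coprime (2 * NN k) := by
    apply Nat.Coprime.mul_right
    · rw [Nat.coprime_two_right]
      exact Nat.odd_iff.2 (by omega)
    · unfold NN
      apply Nat.Coprime.pow_right
      rw [Nat.coprime_two_right]
      exact Nat.odd_iff.2 (by omega)
  unfold Nat.Coprime at h5 ⊢
  rw [← Nat.gcd_rec, Nat.gcd_comm]
  exact h5

theorem t_ORDER : Pool.Agent.K1H34.Had2.S_ORDER := by
  obtain ⟨y0, hap⟩ := prime_ap 1 2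
  have hlog : ∀ᶠ n : ℕ in atTop, (6 : ℝ) ≤ Real.log n :=
    (Real.tendsto_log_atTop.comp tendsto_natCast_atTop_atTop).eventually_ge_atTop 6
  obtain ⟨n1, hn1⟩ := eventually_atTop.1 hlog
  refine ⟨n1 + y0 ^ 2 + 4, ?_⟩
  intro n k y hn h4 hNN hy
  have hn4 : 4 ≤ n := by omega
  have hL := hn1 n (by omega)
  have hn0 : (0 : ℝ) < n := by exact_mod_cast (by omega : 0 < n)
  have hn1' : (1 : ℝ) ≤ n := by exact_mod_cast (by omega : 1 ≤ n)
  have hpos : 0 < (n : ℝ) ^ (3 / 5 : ℝ) := Real.rpow_pos_of_pos hn0 _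
  have hy0 : (0 : ℝ) < y := lt_of_lt_of_le hpos hy
  have hyy0 : y0 ≤ y := by
    have h1 : ((y0 : ℝ)) ≤ (n : ℝ) ^ (1 / 2 : ℝ) := by
      rw [← Real.sqrt_eq_rpow]
      apply Real.le_sqrt_of_sq_le
      exact_mod_cast (by omega : y0 ^ 2 ≤ n)
    have h2 : (n : ℝ) ^ (1 / 2 : ℝ) ≤ (n : ℝ) ^ (3 / 5 : ℝ) :=
      Real.rpow_le_rpow_of_exponent_le hn1' (by norm_num)
    exact_mod_cast (h1.trans h2).trans hy
  have hlogy : 3 / 5 * Real.log n ≤ Real.log y := by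
    rw [← Real.log_rpow hn0]
    exact Real.log_le_log hpos hy
  obtain ⟨q, hq⟩ : ∃ q, q = 2 * NN k := ⟨_, rfl⟩
  have hNpos : 0 < NN k := by unfold NN; positivity
  have hq1 : 1 ≤ q := by omega
  have hqR : (q : ℝ) ≤ Real.log y ^ 2 := by
    have h1 : (q : ℝ) ≤ 2 * Real.log n := by
      rw [hq]
      push_cast
      linarith
    nlinarith
  obtain ⟨P, hP, hPc, hPy, hPL⟩ := hap y hyy0 q hq1 hqR ((n - 1) % q) (Nat.mod_lt _ (by omega))
    (by rw [hq]; exact cop_aux k n hn4 h4)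
  have hPn : P ≡ n - 1 [MOD q] := hPc.trans (Nat.mod_modEq _ q)
  have h4q : 4 ∣ q := by
    rw [hq]
    exact Dvd.dvd.mul_left (NN_four k) 2
  have hP4 : P % 4 = 3 := by
    have h1 : P ≡ n - 1 [MOD 4] := hPn.of_dvd h4q
    have h2 : P % 4 = (n - 1) % 4 := h1
    omega
  refine ⟨P + 1, Pool.Agent.Y341.Had.had_paley_one hP hP4, by omega, ?_, ?_, ?_⟩
  · rw [← hq]
    have h1 : P + 1 ≡ (n - 1) + 1 [MOD q] := hPn.add_right 1
    rwa [Nat.sub_add_cancel (by omega)] at h1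
  · have h1 : 2 ≤ Real.log y := by linarith
    have h2 : (y : ℝ) / Real.log y ^ 1 ≤ y / 2 := by
      rw [pow_one]
      exact div_le_div_of_nonneg_left hy0.le (by norm_num) h1
    push_cast
    linarith
  · have : (P : ℝ) ≤ y := by exact_mod_cast hPy
    push_cast
    linarith

end Pool.Agent.K1H46.Had2
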